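import Pool.Agent.Helper89.OC.St2

/-!
# OC MODULE E2 (MP_2b6189_al): the projection identity
-/

set_option autoImplicit false

namespace Pool.Agent.Helper61.OC

open Matrix ComplexConjugate Pool.Agent.Helper94.YF Pool.Agent.Helper94.YG Pool.Agent.Helper89.OS
  Pool.Agent.Helper89.OC

/-- powers of the inverse root of unity -/
theorem inv_pow_neg_val {p : ℕ} [NeZero (p ^ 1)] (ζ : ℂ) (h : ζ ^ (p ^ 1) = 1)
    (a : ZMod (p ^ 1)) : (ζ⁻¹) ^ (-a).val = ζ ^ a.val := by
  have h1 : ζ ^ ((-a).val + a.val) = 1 := by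
    have h2 : p ^ 1 ∣ (-a).val + a.val := by
      rw [← ZMod.natCast_eq_zero_iff]
      push_cast
      rw [ZMod.natCast_zmod_val, ZMod.natCast_zmod_val, neg_add_cancel]
    obtain ⟨m, hm⟩ := h2
    rw [hm, pow_mul, h, one_pow]
  rw [inv_pow]
  rw [pow_add] at h1
  rw [eq_inv_of_mul_eq_one_left h1, inv_inv]

open Classical in
theorem hE2 : StE2 := by
  intro I _ _ p _ X u hu ζ hζ
  have hp := X.prime
  have : NeZero (p ^ 1) := ⟨by simpa using hp.ne_zero⟩
  have hp0 : (p : ℂ) ≠ 0 := by exact_mod_cast hp.ne_zero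
  have hζ1 : ζ ^ (p ^ 1) = 1 := by rw [pow_one]; exact hζ
  have hζ0 : ζ ≠ 0 := by
    intro h0
    rw [h0, zero_pow hp.ne_zero] at hζ
    exact zero_ne_one hζ
  set F : I → ℂ := fun j => ∑ k, X.s j k * u k with hF
  set G : ZMod (p ^ 1) → ℂ := fun w => ∑ j, X.t j ^ w.val * (conj (F j) * F j) with hG
  -- the expansion of `G`
  have hGe : ∀ w, G w = ∑ i, ∑ k, conj (u i) * u k *
      ∑ j, X.t j ^ w.val * (X.s (X.pi (-1) i) j * X.s j k) := by
    intro w
    have e1 : ∀ j, X.t j ^ w.val * (conj (F j) * F j) = ∑ i, ∑ k, conj (u i) * u k *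
        (X.t j ^ w.val * (X.s (X.pi (-1) i) j * X.s j k)) := by
      intro j
      have e2 : conj (F j) = ∑ i, X.s (X.pi (-1) i) j * conj (u i) := by
        rw [hF]
        simp only [map_sum, map_mul]
        refine Finset.sum_congr rfl fun i _ => ?_
        rw [X.conj_s, X.s_symm]
      rw [e2, hF, Finset.sum_mul_sum, Finset.mul_sum]
      refine Finset.sum_congr rfl fun i _ => ?_
      rw [Finset.mul_sum]
      refine Finset.sum_congr rfl fun k _ => ?_
      ring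
    show ∑ j, X.t j ^ w.val * (conj (F j) * F j) = _
    rw [Finset.sum_congr rfl fun j _ => e1 j, Finset.sum_comm]
    refine Finset.sum_congr rfl fun i _ => ?_
    rw [Finset.sum_comm]
    refine Finset.sum_congr rfl fun k _ => ?_
    rw [Finset.mul_sum]
  -- `w = 0`
  have hG0 : G 0 = (p : ℂ) ^ 2 * ((∑ k, ‖u k‖ ^ 2 : ℝ) : ℂ) := by
    rw [hGe]
    have e1 : ∀ i k, ∑ j, X.t j ^ (0 : ZMod (p ^ 1)).val * (X.s (X.pi (-1) i) j * X.s j k) =
        if i = k then (p : ℂ) ^ 2 else 0 := by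
      intro i k
      have e2 : ∑ j, X.t j ^ (0 : ZMod (p ^ 1)).val * (X.s (X.pi (-1) i) j * X.s j k) =
          ∑ j, X.s (X.pi (-1) i) j * X.s j k := by
        refine Finset.sum_congr rfl fun j _ => ?_
        rw [ZMod.val_zero, pow_zero, one_mul]
      rw [e2, X.weil0]
      by_cases hik : i = k
      · rw [if_pos hik, if_pos (by rw [hik])]
      · rw [if_neg hik, if_neg]
        intro h
        apply hik
        have h3 := congrArg (X.pi (-1)) h
        rw [← X.pi_mul, ← X.pi_mul, neg_mul_neg, one_mul, X.pi_one, X.pi_one] at h3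
        exact h3
    rw [Finset.sum_congr rfl fun i _ => Finset.sum_congr rfl fun k _ => by rw [e1 i k]]
    push_cast
    rw [Finset.mul_sum]
    refine Finset.sum_congr rfl fun i _ => ?_
    simp only [mul_ite, mul_zero, Finset.sum_ite_eq, Finset.mem_univ, if_true]
    rw [← Complex.conj_mul']
    ring
  -- `w` a unit
  have hGu : ∀ w : (ZMod (p ^ 1))ˣ, G (w : ZMod (p ^ 1)) = (p : ℂ) *
      ∑ i, ∑ k, conj (u i) * (X.s i (X.pi (-w⁻¹) k) * u k) := by
    intro w
    rw [hGe, Finset.mul_sum]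
    refine Finset.sum_congr rfl fun i _ => ?_
    rw [Finset.mul_sum]
    refine Finset.sum_congr rfl fun k _ => ?_
    by_cases hi : u i = 0
    · rw [hi]; simp
    by_cases hk : u k = 0
    · rw [hk]; simp
    have ti := hu i hi
    have tk := hu k hk
    have ti' : X.t (X.pi (-1) i) = 1 := by rw [X.pi_t, ti, one_pow]
    have e3 : X.s (X.pi (-1) i) (X.pi w⁻¹ k) = X.s i (X.pi (-w⁻¹) k) := by
      rw [X.pi_s, ← X.pi_mul, neg_one_mul]
    rw [X.weil, ti', tk, one_pow, e3]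
    ring
  -- the sum over all residues
  have hleft : ∑ w : ZMod (p ^ 1), (ζ⁻¹) ^ w.val * G w =
      (p : ℂ) * ((∑ j, (if X.t j = ζ then ‖∑ k, X.s j k * u k‖ ^ 2 else 0) : ℝ) : ℂ) := by
    have e1 : ∀ w : ZMod (p ^ 1), (ζ⁻¹) ^ w.val * G w =
        ∑ j, (ζ⁻¹ * X.t j) ^ w.val * (conj (F j) * F j) := by
      intro w
      show (ζ⁻¹) ^ w.val * ∑ j, X.t j ^ w.val * (conj (F j) * F j) = _
      rw [Finset.mul_sum]
      refine Finset.sum_congr rfl fun j _ => ?_
      rw [mul_pow]; ring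
    rw [Finset.sum_congr rfl fun w _ => e1 w, Finset.sum_comm]
    push_cast
    rw [Finset.mul_sum]
    refine Finset.sum_congr rfl fun j _ => ?_
    rw [← Finset.sum_mul]
    have hθ : (ζ⁻¹ * X.t j) ^ (p ^ 1) = 1 := by
      rw [mul_pow, inv_pow, hζ1, X.t_pow, inv_one, one_mul]
    rw [Helper82.OS.sum_pow_val hp _ hθ]
    have hiff : ζ⁻¹ * X.t j = 1 ↔ X.t j = ζ := by
      constructor
      · intro h
        have := congrArg (fun z => ζ * z) h
        simpa [← mul_assoc, mul_inv_cancel₀ hζ0] using this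
      · intro h
        rw [h, inv_mul_cancel₀ hζ0]
    by_cases ht : X.t j = ζ
    · rw [if_pos (hiff.2 ht), if_pos ht, Complex.conj_mul']
      push_cast
      rfl
    · rw [if_neg (fun h => ht (hiff.1 h)), if_neg ht]
      simp
  have hright : ∑ w : ZMod (p ^ 1), (ζ⁻¹) ^ w.val * G w =
      (p : ℂ) ^ 2 * ((∑ k, ‖u k‖ ^ 2 : ℝ) : ℂ) + (p : ℂ) * ∑ c : (ZMod (p ^ 1))ˣ,
      ζ ^ (((c⁻¹ : (ZMod (p ^ 1))ˣ) : ZMod (p ^ 1))).val *
        ∑ i, ∑ k, conj (u i) * (X.s i (X.pi c k) * u k) := by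
    rw [Helper82.OS.sum_residues hp]
    congr 1
    · rw [ZMod.val_zero, pow_zero, one_mul, hG0]
    · rw [Finset.mul_sum]
      refine Finset.sum_nbij' (fun w => -w⁻¹) (fun c => -c⁻¹) ?_ ?_ ?_ ?_ ?_
      · intro w _; exact Finset.mem_univ _
      · intro w _; exact Finset.mem_univ _
      · intro w _
        show -(-w⁻¹)⁻¹ = w
        rw [inv_neg, neg_neg, inv_inv]
      · intro c _
        show -(-c⁻¹)⁻¹ = c
        rw [inv_neg, neg_neg, inv_inv]
      · intro w _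
        have e4 : (((-w⁻¹)⁻¹ : (ZMod (p ^ 1))ˣ) : ZMod (p ^ 1)) = -(w : ZMod (p ^ 1)) := by
          rw [inv_neg, inv_inv, Units.val_neg]
        rw [hGu, e4, ← inv_pow_neg_val ζ hζ1, neg_neg]
        ring
  have h3 := hleft.symm.trans hright
  have h4 : (p : ℂ) * ((∑ j, (if X.t j = ζ then ‖∑ k, X.s j k * u k‖ ^ 2 else 0) : ℝ) : ℂ) =
      (p : ℂ) * ((p : ℂ) * ((∑ k, ‖u k‖ ^ 2 : ℝ) : ℂ) + ∑ c : (ZMod (p ^ 1))ˣ,
      ζ ^ (((c⁻¹ : (ZMod (p ^ 1))ˣ) : ZMod (p ^ 1))).val *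
        ∑ i, ∑ k, conj (u i) * (X.s i (X.pi c k) * u k)) := by
    rw [h3]; ring
  exact mul_left_cancel₀ hp0 h4

end Pool.Agent.Helper61.OC
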